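import Mathlib
import Pool.Agent.TH497.PW.IntFlow
import Pool.Agent.TH362.FP.Pos
import Pool.Agent.Y335.FL.Main
import Pool.Agent.H173FL.Tree

set_option autoImplicit false

/-!
# Nowhere-zero 5-flows in graphs without a minor isomorphic to a tree with 126 vertices (MP_974d84_co)

Let `T` be the tree with `126` vertices and `64` leaves which consists of two complete binary trees
of depth five and an edge between their roots.  Every bridgeless multigraph `G` without a minor
isomorphic to `T` has a nowhere-zero 5-flow, and the characteristic polynomial of its bond matroid (a
binary matroid without a minor isomorphic to `F_7`, `M(K_5)` or `M(K_{3,3})`) is positive at all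
integers `q ≥ 5`.  So the same holds if any minor of `T` is excluded; for example if `G` has no minor
isomorphic to the star `K_{1,64}` (in particular if all spanning trees of the connected graph `G`
have at most `63` leaves).  The degrees, the connectivity, the number of vertices and the genus are
arbitrary.

Proof.  The class is closed under contractions.  Let `G` be a counterexample with as few edges as
possible.  Circuits with at most eleven edges can be contracted (starting library `Y335/FL`), and so
can one of two edges which form a cut; hence `G` has girth at least twelve and all degrees are at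
least three (apart from isolated vertices).  Let `x` and `y` be adjacent.  Paths from `x` which avoid
`y` are continued by two different new neighbours of their ends, up to length five, and the same is
done for `y`.  Two different addresses (a side and a word with at most five letters) lead to
different vertices, because otherwise there would be a circuit with at most eleven edges.  So `T` is a
subgraph of `G`.
-/

namespace Pool.Agent.Results.MP_974d84_co.ExcludedTree

open Pool.Agent.TH497.PW

variable {V E : Type}

/-- The edges with exactly one end in `X`. -/
def boundary [DecidableEq V] [Fintype E] (src dst : E → V) (X : Finset V) : Finset E :=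
  Finset.univ.filter (fun e => ¬ (src e ∈ X ↔ dst e ∈ X))

/-- The label `t` (a side and a word with at most five letters) is a vertex of the tree `T`. -/
def IsAddress (t : Bool × List Bool) : Prop := t.2.length ≤ 5

/-- The pairs of adjacent vertices of the tree `T`: the roots `(false, [])` and `(true, [])` of the
two binary trees are adjacent, and `(b, w)` is adjacent to its children `(b, false :: w)` and
`(b, true :: w)` if the word `w` has less than five letters. -/
inductive TreeEdge : Bool × List Bool → Bool × List Bool → Prop
  | root : TreeEdge (false, []) (true, [])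
  | child (b c : Bool) (w : List Bool) (h : w.length < 5) : TreeEdge (b, w) (b, c :: w)

/-- The edges of `G` which join two vertices with the labels `t` and `t'`. -/
def Joins (src dst : E → V) (β : V → Option (Bool × List Bool)) (t t' : Bool × List Bool) (e : E) :
    Prop :=
  (β (src e) = some t ∧ β (dst e) = some t') ∨ (β (dst e) = some t ∧ β (src e) = some t')

/-- The tree `T` is a minor of the graph: some vertices are labelled by vertices of `T` such that the
vertices with the same label `t` span a connected subgraph (for every set `X` of vertices which
contains some but not all of them, an edge with both ends among them has exactly one end in `X`),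
and such that for adjacent vertices `t`, `t'` of `T` some edge joins a vertex with the label `t` to
a vertex with the label `t'`. -/
def HasTreeMinor (src dst : E → V) : Prop :=
  ∃ β : V → Option (Bool × List Bool),
    (∀ t, IsAddress t → ∀ X : Set V, (∃ v ∈ X, β v = some t) → (∃ v ∉ X, β v = some t) →
      ∃ e, Joins src dst β t t e ∧ ¬ (src e ∈ X ↔ dst e ∈ X)) ∧
    ∀ t t', TreeEdge t t' → ∃ e, Joins src dst β t t' e

/-- Kirchhoff's law. -/
def IsFlow [DecidableEq V] [Fintype E] (src dst : E → V) (f : E → ℤ) : Prop :=
  ∀ v : V, ∑ e ∈ Finset.univ.filter (fun e => src e = v), f e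
    = ∑ e ∈ Finset.univ.filter (fun e => dst e = v), f e

/-- The number of the components of the graph with the vertices `V` and the edges `A`. -/
noncomputable def components (src dst : E → V) (A : Finset E) : ℕ :=
  Nat.card (SimpleGraph.fromRel
    (fun u v : V => ∃ e ∈ A, src e = u ∧ dst e = v)).ConnectedComponent

/-- The rank of `A` in the cycle matroid of the graph. -/
noncomputable def cycleRank [Fintype V] (src dst : E → V) (A : Finset E) : ℕ :=
  Fintype.card V - components src dst A

/-- The rank of `A` in the bond matroid of the graph (the dual of the cycle matroid). -/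
noncomputable def bondRank [Fintype V] [Fintype E] [DecidableEq E] (src dst : E → V)
    (A : Finset E) : ℕ :=
  A.card + cycleRank src dst Aᶜ - cycleRank src dst Finset.univ

/-- The characteristic polynomial of the bond matroid at the integer `x`. -/
noncomputable def bondCharPoly [Fintype V] [Fintype E] [DecidableEq E] (src dst : E → V)
    (x : ℤ) : ℤ :=
  ∑ A : Finset E, (-1) ^ A.card * x ^ (bondRank src dst Finset.univ - bondRank src dst A)

theorem isFlow_iff [DecidableEq V] [Fintype E] (src dst : E → V) (f : E → ℤ) :
    IsFlow src dst f ↔
      ∀ v, ∑ e, f e * ((if src e = v then 1 else 0) - (if dst e = v then 1 else 0)) = 0 := by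
  unfold IsFlow
  refine forall_congr' fun v => ?_
  rw [Finset.sum_filter, Finset.sum_filter, ← sub_eq_zero, ← Finset.sum_sub_distrib]
  have : ∀ e, (if src e = v then f e else 0) - (if dst e = v then f e else 0)
      = f e * ((if src e = v then 1 else 0) - (if dst e = v then 1 else 0)) := by
    intro e
    by_cases h1 : src e = v <;> by_cases h2 : dst e = v <;> simp [h1, h2]
  rw [Finset.sum_congr rfl (fun e _ => this e)]

theorem nzf [Fintype V] [DecidableEq V] [Fintype E] [DecidableEq E] (src dst : E → V)
    (h : Pool.Agent.TH676.Z.FlowOn src dst ∅ ∅) : NZF src dst := by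
  obtain ⟨f, h1, _, h3⟩ := h
  refine ⟨f, fun e => h3 e (Finset.notMem_empty _) (Finset.notMem_empty _), fun x => ?_⟩
  rw [← h1 x]
  unfold Pool.Agent.TH676.Z.bd
  refine Finset.sum_congr rfl fun e _ => ?_
  unfold ic
  by_cases h4 : src e = x <;> by_cases h5 : dst e = x <;> simp [h4, h5]

theorem charPoly_pos [Fintype V] [DecidableEq V] [Fintype E] [DecidableEq E] (src dst : E → V)
    (f : E → ℤ) (h1 : IsFlow src dst f) (h2 : ∀ e, 1 ≤ |f e| ∧ |f e| ≤ 4) (q : ℕ) (hq : 5 ≤ q) :
    0 < bondCharPoly src dst q :=
  Pool.Agent.TH362.FP.chr_pos src dst f h2 h1 q hq

theorem treeMinor_of (src dst : E → V) (h : Pool.Agent.H173FL.TreeMinor 5 src dst) :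
    HasTreeMinor src dst := by
  obtain ⟨β, h1, h2, h3⟩ := h
  refine ⟨β, ?_, ?_⟩
  · intro t ht X hv hv'
    obtain ⟨v, hvX, hvt⟩ := hv
    obtain ⟨v', hvX', hvt'⟩ := hv'
    obtain ⟨e, a1, a2, a3⟩ := h1 t ht (fun v => v ∈ X) ⟨v, hvX, hvt⟩ ⟨v', hvX', hvt'⟩
    exact ⟨e, Or.inl ⟨a1, a2⟩, a3⟩
  · intro t t' h
    cases h with
    | root => exact h2
    | child b c w hw => exact h3 b c w hw

open Pool.Agent.TH676.Z Pool.Agent.Y335.FL in
/-- no minor isomorphic to the tree -/
theorem flowOn [Fintype V] [DecidableEq V] [Fintype E] [DecidableEq E] {src dst : E → V}
    (h : ¬ HasTreeMinor src dst)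
    (hb : ∀ Y : Finset V, (crs src dst Y).card ≠ 1) : FlowOn src dst ∅ ∅ :=
  Pool.Agent.H173FL.flow_of_no_tree contract_all src dst (fun h' => h (treeMinor_of src dst h'))
    (fun Y _ => by rw [Finset.sdiff_empty]; exact hb Y)

/-- **Theorem.** Let `G` be a finite multigraph (loops and parallel edges allowed), given by the
ends `src e`, `dst e` of each edge `e`, without an edge cut consisting of exactly one edge.  If `G`
has no minor isomorphic to the tree which consists of two complete binary trees of depth five and an
edge between their roots, then `G` has an integer flow with values in `{±1, ±2, ±3, ±4}`, and the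
characteristic polynomial of the bond matroid of `G` is positive at all integers `q ≥ 5`. -/
theorem result :
    ∀ (V E : Type) [Fintype V] [DecidableEq V] [Fintype E] [DecidableEq E] (src dst : E → V),
      ¬ HasTreeMinor src dst →
      (∀ Y : Finset V, (boundary src dst Y).card ≠ 1) →
      (∃ f : E → ℤ, IsFlow src dst f ∧ ∀ e, 1 ≤ |f e| ∧ |f e| ≤ 4) ∧
      ∀ q : ℕ, 5 ≤ q → 0 < bondCharPoly src dst q := by
  intro V E _ _ _ _ src dst h hb
  have hfl := flowOn h hb
  obtain ⟨F, hF, hF0⟩ := int_flow src dst (nzf src dst hfl)
  have hF1 := (isFlow_iff src dst F).mpr hF0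
  exact ⟨⟨F, hF1, hF⟩, fun q hq => charPoly_pos src dst F hF1 hF q hq⟩

end Pool.Agent.Results.MP_974d84_co.ExcludedTree
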