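import Mathlib
import Pool.Agent.TH497.PW.IntFlow
import Pool.Agent.TH362.FP.Pos
import Pool.Agent.Y335.FL.Main
import Pool.Agent.R890.FL.Cross

set_option autoImplicit false

/-!
# Nowhere-zero 5-flows in graphs with crossing number at most forty (MP_974d84_co)

Let `G` be a bridgeless multigraph and let `F` be a set of `k` edges such that `G - F` satisfies
MacLane's condition with defect `h`: there is a family of elements of the cycle space over `GF(2)`
of `G - F` such that every edge is in at most two of them and the codimension of their span in the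
cycle space is at most `h`.  If `5 k + 6 h ≤ 200` then `G` has a nowhere-zero 5-flow, and the
characteristic polynomial of the bond matroid of `G` is positive at all integers `q ≥ 5`.

For a drawing of `G` in a surface of Euler genus `h` with `k` crossings let `F` contain one of the
two edges of every crossing; then `G - F` is embedded, and the boundaries of its faces are such a
family.  So every bridgeless graph which can be drawn with at most `k` crossings in a surface of
Euler genus `h`, `5 k + 6 h ≤ 200`, has a nowhere-zero 5-flow; in particular every bridgeless graph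
with crossing number at most 40, and every bridgeless graph which becomes planar by the deletion of
at most 40 edges.  The degrees, the connectivity and the order are arbitrary.

Proof.  The class of these graphs is not closed under minors: the contraction of an edge of `F`
identifies two vertices of `G - F`.  Let `(G, F)` be a counterexample with as few edges as possible.
One can contract the edges which are not in `F`, and the edges at a vertex all of whose edges are in
`F`.

(1) Circuits with at most eleven edges are contractible for nowhere-zero 5-flows (library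
`Y335/FL`); so every circuit with at most eleven edges is contained in `F`, and the nonzero elements
of the cycle space of `G - F` have at least twelve edges.

(2) All vertices have at least three edges: otherwise there is a vertex with two edges; if one of
them is not in `F` it can be contracted, and if both are in `F` one of them can be contracted.

(3) Let `m`, `n`, `c` be the numbers of edges and vertices and the cyclomatic number of `G`, let
`c'` be that of `G - F` and `r` the dimension of the span of the family.  Then `3 n ≤ 2 m`,
`m + 1 ≤ c + n`, `c ≤ c' + k`, `c' ≤ r + h` and `12 (r + 1) ≤ 2 (m - k)`, hence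
`3 c ≤ 5 k + 6 h - 9`.  But `c ≥ 64`, since bridgeless graphs with cyclomatic number at most 63 have
nowhere-zero 5-flows (library `Y335/FL`).
-/

namespace Pool.Agent.Results.MP_974d84_co.FortyCrossings

open Pool.Agent.TH497.PW

variable {V E : Type}

/-- The edges with exactly one end in `Y`. -/
def boundary [DecidableEq V] [Fintype E] (src dst : E → V) (Y : Finset V) : Finset E :=
  Finset.univ.filter (fun e => ¬ (src e ∈ Y ↔ dst e ∈ Y))

/-- Kirchhoff's law. -/
def IsFlow [DecidableEq V] [Fintype E] (src dst : E → V) (f : E → ℤ) : Prop :=
  ∀ v : V, ∑ e ∈ Finset.univ.filter (fun e => src e = v), f e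
    = ∑ e ∈ Finset.univ.filter (fun e => dst e = v), f e

/-- The cycle space over `GF(2)` of the graph `G - F`: the functions on the edges which are zero on
the edges in `F` and which satisfy Kirchhoff's law modulo 2. -/
def cycleSpace [DecidableEq V] [Fintype E] (src dst : E → V) (F : Finset E) :
    Submodule (ZMod 2) (E → ZMod 2) where
  carrier := {x | (∀ e ∈ F, x e = 0) ∧
    ∀ v : V, ∑ e ∈ Finset.univ.filter (fun e => src e = v), x e
      + ∑ e ∈ Finset.univ.filter (fun e => dst e = v), x e = 0}
  add_mem' := by
    rintro a b ⟨h1, h2⟩ ⟨h3, h4⟩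
    refine ⟨fun e he => by rw [Pi.add_apply, h1 e he, h3 e he, add_zero], fun v => ?_⟩
    simp only [Pi.add_apply, Finset.sum_add_distrib]
    have := congrArg₂ (· + ·) (h2 v) (h4 v)
    simp only [add_zero] at this
    rw [← this]
    ring
  zero_mem' := ⟨fun _ _ => rfl, fun v => by simp⟩
  smul_mem' := by
    rintro c a ⟨h1, h2⟩
    refine ⟨fun e he => by rw [Pi.smul_apply, h1 e he, smul_zero], fun v => ?_⟩
    simp only [Pi.smul_apply, smul_eq_mul, ← Finset.mul_sum]
    rw [← mul_add, h2 v, mul_zero]

/-- MacLane's condition with defect `h` for the graph `G - F`: there is a finite family of elements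
of the cycle space of `G - F` such that every edge is in at most two of them and the dimension of
the cycle space is at most the dimension of their span plus `h`. -/
def MacLaneDefect [DecidableEq V] [Fintype E] (src dst : E → V) (F : Finset E) (h : ℕ) : Prop :=
  ∃ (k : ℕ) (K : Fin k → E → ZMod 2), (∀ i, K i ∈ cycleSpace src dst F) ∧
    (∀ e, (Finset.univ.filter (fun i => K i e ≠ 0)).card ≤ 2) ∧
    Module.finrank (ZMod 2) (cycleSpace src dst F) ≤
      Module.finrank (ZMod 2) (Submodule.span (ZMod 2) (Set.range K)) + h

/-- The number of the components of the graph with the vertices `V` and the edges `A`. -/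
noncomputable def components (src dst : E → V) (A : Finset E) : ℕ :=
  Nat.card (SimpleGraph.fromRel
    (fun u v : V => ∃ e ∈ A, src e = u ∧ dst e = v)).ConnectedComponent

/-- The rank of `A` in the cycle matroid of the graph. -/
noncomputable def cycleRank [Fintype V] (src dst : E → V) (A : Finset E) : ℕ :=
  Fintype.card V - components src dst A

/-- The rank of `A` in the bond matroid of the graph (the dual of the cycle matroid). -/
noncomputable def bondRank [Fintype V] [Fintype E] [DecidableEq E] (src dst : E → V)
    (A : Finset E) : ℕ :=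
  A.card + cycleRank src dst Aᶜ - cycleRank src dst Finset.univ

/-- The characteristic polynomial of the bond matroid at the integer `x`. -/
noncomputable def bondCharPoly [Fintype V] [Fintype E] [DecidableEq E] (src dst : E → V)
    (x : ℤ) : ℤ :=
  ∑ A : Finset E, (-1) ^ A.card * x ^ (bondRank src dst Finset.univ - bondRank src dst A)

theorem isFlow_iff [DecidableEq V] [Fintype E] (src dst : E → V) (f : E → ℤ) :
    IsFlow src dst f ↔
      ∀ v, ∑ e, f e * ((if src e = v then 1 else 0) - (if dst e = v then 1 else 0)) = 0 := by
  unfold IsFlow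
  refine forall_congr' fun v => ?_
  rw [Finset.sum_filter, Finset.sum_filter, ← sub_eq_zero, ← Finset.sum_sub_distrib]
  have : ∀ e, (if src e = v then f e else 0) - (if dst e = v then f e else 0)
      = f e * ((if src e = v then 1 else 0) - (if dst e = v then 1 else 0)) := by
    intro e
    by_cases h1 : src e = v <;> by_cases h2 : dst e = v <;> simp [h1, h2]
  rw [Finset.sum_congr rfl (fun e _ => this e)]

theorem nzf [Fintype V] [DecidableEq V] [Fintype E] [DecidableEq E] (src dst : E → V)
    (h : Pool.Agent.TH676.Z.FlowOn src dst ∅ ∅) : NZF src dst := by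
  obtain ⟨f, h1, _, h3⟩ := h
  refine ⟨f, fun e => h3 e (Finset.notMem_empty _) (Finset.notMem_empty _), fun x => ?_⟩
  rw [← h1 x]
  unfold Pool.Agent.TH676.Z.bd
  refine Finset.sum_congr rfl fun e _ => ?_
  unfold ic
  by_cases h4 : src e = x <;> by_cases h5 : dst e = x <;> simp [h4, h5]

theorem cycleSpace_eq [Fintype V] [DecidableEq V] [Fintype E] [DecidableEq E] (src dst : E → V)
    (F : Finset E) : cycleSpace src dst F =
      Pool.Agent.TH676.Z.ZF src dst (Finset.univ \ F) := by
  ext x
  have h2 : ∀ v, Pool.Agent.TH676.Z.bd2 src dst x v =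
      ∑ e ∈ Finset.univ.filter (fun e => src e = v), x e
        + ∑ e ∈ Finset.univ.filter (fun e => dst e = v), x e := by
    intro v
    unfold Pool.Agent.TH676.Z.bd2
    rw [Finset.sum_add_distrib, Finset.sum_filter, Finset.sum_filter]
  constructor
  · rintro ⟨h, h'⟩
    refine ⟨fun e he => h e ?_, fun v => by rw [h2 v]; exact h' v⟩
    by_contra hc
    exact he (Finset.mem_sdiff.mpr ⟨Finset.mem_univ _, hc⟩)
  · rintro ⟨h, h'⟩
    refine ⟨fun e he => h e ?_, fun v => by rw [← h2 v]; exact h' v⟩
    intro hc
    exact (Finset.mem_sdiff.mp hc).2 he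

theorem charPoly_pos [Fintype V] [DecidableEq V] [Fintype E] [DecidableEq E] (src dst : E → V)
    (f : E → ℤ) (h1 : IsFlow src dst f) (h2 : ∀ e, 1 ≤ |f e| ∧ |f e| ≤ 4) (q : ℕ) (hq : 5 ≤ q) :
    0 < bondCharPoly src dst q :=
  Pool.Agent.TH362.FP.chr_pos src dst f h2 h1 q hq

theorem result :
    ∀ (V E : Type) [Fintype V] [DecidableEq V] [Fintype E] [DecidableEq E]
      (src dst : E → V) (F : Finset E) (h : ℕ), 5 * F.card + 6 * h ≤ 200 →
      MacLaneDefect src dst F h →
      (∀ Y : Finset V, (boundary src dst Y).card ≠ 1) →
      (∃ f : E → ℤ, IsFlow src dst f ∧ ∀ e, 1 ≤ |f e| ∧ |f e| ≤ 4) ∧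
      ∀ q : ℕ, 5 ≤ q → 0 < bondCharPoly src dst q := by
  intro V E _ _ _ _ src dst F h hk hM hb
  have hM1 : Pool.Agent.TH676.Z.Mac h src dst (Finset.univ \ F) := by
    obtain ⟨k, K, h1, h2, h3⟩ := hM
    rw [cycleSpace_eq] at h3
    exact ⟨k, K, fun i => by rw [← cycleSpace_eq]; exact h1 i, h2, h3⟩
  have hM2 : Pool.Agent.TH676.Z.Mac h src dst (Pool.Agent.TH676.Z.Crit.nl src dst \ F) :=
    Pool.Agent.TH676.Z.ApMCx.sub_mac Pool.Agent.TH676.Z.macDel _ _ _ _ _ hM1
      (Finset.sdiff_subset_sdiff (Finset.subset_univ _) (Finset.Subset.refl _))
  have hbr : Pool.Agent.TH676.Z.Br src dst ∅ ∅ :=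
    fun Y _ => by rw [Finset.sdiff_empty]; exact hb Y
  have hfl : Pool.Agent.TH676.Z.FlowOn src dst ∅ ∅ :=
    Pool.Agent.R890.FL.cross Pool.Agent.Y335.FL.contract_all Pool.Agent.Y335.FL.even_all
      Pool.Agent.Y335.FL.cyc_all V E src dst F.card h hk ⟨F, le_rfl, hM2⟩ hbr
  obtain ⟨f, hF, hF0⟩ := int_flow src dst (nzf src dst hfl)
  have hF1 := (isFlow_iff src dst f).mpr hF0
  exact ⟨⟨f, hF1, hF⟩, fun q hq => charPoly_pos src dst f hF1 hF q hq⟩

end Pool.Agent.Results.MP_974d84_co.FortyCrossings
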