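import Mathlib
import Pool.Agent.TH497.PW.IntFlow
import Pool.Agent.TH362.FP.Pos
import Pool.Agent.Y335.FL.Main
import Pool.Agent.R129.Hole.Path

set_option autoImplicit false

/-!
# Graphs without long induced circuits (MP_974d84_co)

Let `G` be a bridgeless multigraph such that every induced circuit (of length at least three) of the
underlying simple graph contains at most `25` vertices of degree at least three of `G`.  Then `G`
has a nowhere-zero 5-flow, and the characteristic polynomial of its bond matroid is positive at all
integers `q ≥ 5`.

In particular this holds if all induced circuits have length at most 25, hence for all bridgeless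
graphs of circumference at most 25 and for all bridgeless graphs without an induced path on 25
vertices (`noInducedPath`).  The order, the degrees, the connectivity and the treewidth are
arbitrary.

Proof.  The class is closed under contractions: an induced circuit of `G / e` can be lifted to an
induced circuit of `G`.  (It is not closed under deletions.)  Let `G` be a counterexample with as
few edges as possible.  Circuits with at most eleven edges can be contracted (library `Y335/FL`),
and so can one of two edges which form a cut; hence (library `Y358/IN`) `G` has girth at least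
twelve and all degrees are at least three.  Let `v_0, ..., v_m` be a longest induced path.  The two
further neighbours `y`, `z` of `v_m` have neighbours on the path; let `v_i` and `v_j` be the last
ones.  Let `w` be a third neighbour of `v_{m-1}`.  Either `w` has a neighbour on the path, and `v_l`
is the last one, or `v_0, ..., v_{m-1}, w` is a longest induced path, too, and the two further
neighbours of `w` have neighbours on the path.  All these vertices lie on induced circuits which
consist of a section of one of the paths and one further vertex.  As `G` has girth at least twelve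
the numbers `m - i`, `m - j` are at least ten, `i` and `j` differ by at least eight, `l` differs
from `i` and `j` by at least seven, and so on.  Hence one of these circuits has length at least 26.
-/

namespace Pool.Agent.Results.MP_974d84_co.InducedCircuits

open Pool.Agent.TH497.PW

variable {V E : Type}

/-- The edges with exactly one end in `X`. -/
def boundary [DecidableEq V] [Fintype E] (src dst : E → V) (X : Finset V) : Finset E :=
  Finset.univ.filter (fun e => ¬ (src e ∈ X ↔ dst e ∈ X))

/-- Kirchhoff's law. -/
def IsFlow [DecidableEq V] [Fintype E] (src dst : E → V) (f : E → ℤ) : Prop :=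
  ∀ v : V, ∑ e ∈ Finset.univ.filter (fun e => src e = v), f e
    = ∑ e ∈ Finset.univ.filter (fun e => dst e = v), f e

/-- The degree of `v`; loops are not counted. -/
def properDegree [DecidableEq V] [Fintype E] (src dst : E → V) (v : V) : ℕ :=
  (Finset.univ.filter (fun e => src e ≠ dst e ∧ (src e = v ∨ dst e = v))).card

/-- There is an edge between `x` and `y`, and `x ≠ y`. -/
def Adjacent (src dst : E → V) (x y : V) : Prop :=
  x ≠ y ∧ ∃ e, (src e = x ∧ dst e = y) ∨ (src e = y ∧ dst e = x)

open Classical in
/-- The vertices in `C` induce a circuit of the underlying simple graph (of length at least three):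
`C` is not empty, every vertex in `C` has exactly two neighbours in `C`, and the graph induced on
`C` is connected. -/
structure IsInducedCircuit (src dst : E → V) (C : Finset V) : Prop where
  nonempty : C.Nonempty
  two : ∀ x ∈ C, (C.filter (fun y => Adjacent src dst x y)).card = 2
  connected : ∀ A ⊆ C, A.Nonempty → (∀ a ∈ A, ∀ b ∈ C, Adjacent src dst a b → b ∈ A) → A = C

/-- `p 0, ..., p m` are the vertices of an induced path of the underlying simple graph. -/
def IsInducedPath (src dst : E → V) (m : ℕ) (p : ℕ → V) : Prop :=
  (∀ i ≤ m, ∀ j ≤ m, p i = p j → i = j) ∧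
    ∀ i ≤ m, ∀ j ≤ m, (Adjacent src dst (p i) (p j) ↔ (i + 1 = j ∨ j + 1 = i))

/-- The number of the components of the graph with the vertices `V` and the edges `A`. -/
noncomputable def components (src dst : E → V) (A : Finset E) : ℕ :=
  Nat.card (SimpleGraph.fromRel
    (fun u v : V => ∃ e ∈ A, src e = u ∧ dst e = v)).ConnectedComponent

/-- The rank of `A` in the cycle matroid of the graph. -/
noncomputable def cycleRank [Fintype V] (src dst : E → V) (A : Finset E) : ℕ :=
  Fintype.card V - components src dst A

/-- The rank of `A` in the bond matroid of the graph (the dual of the cycle matroid). -/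
noncomputable def bondRank [Fintype V] [Fintype E] [DecidableEq E] (src dst : E → V)
    (A : Finset E) : ℕ :=
  A.card + cycleRank src dst Aᶜ - cycleRank src dst Finset.univ

/-- The characteristic polynomial of the bond matroid at the integer `x`. -/
noncomputable def bondCharPoly [Fintype V] [Fintype E] [DecidableEq E] (src dst : E → V)
    (x : ℤ) : ℤ :=
  ∑ A : Finset E, (-1) ^ A.card * x ^ (bondRank src dst Finset.univ - bondRank src dst A)

theorem isFlow_iff [DecidableEq V] [Fintype E] (src dst : E → V) (f : E → ℤ) :
    IsFlow src dst f ↔
      ∀ v, ∑ e, f e * ((if src e = v then 1 else 0) - (if dst e = v then 1 else 0)) = 0 := by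
  unfold IsFlow
  refine forall_congr' fun v => ?_
  rw [Finset.sum_filter, Finset.sum_filter, ← sub_eq_zero, ← Finset.sum_sub_distrib]
  have : ∀ e, (if src e = v then f e else 0) - (if dst e = v then f e else 0)
      = f e * ((if src e = v then 1 else 0) - (if dst e = v then 1 else 0)) := by
    intro e
    by_cases h1 : src e = v <;> by_cases h2 : dst e = v <;> simp [h1, h2]
  rw [Finset.sum_congr rfl (fun e _ => this e)]

theorem nzf [Fintype V] [DecidableEq V] [Fintype E] [DecidableEq E] (src dst : E → V)
    (h : Pool.Agent.TH676.Z.FlowOn src dst ∅ ∅) : NZF src dst := by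
  obtain ⟨f, h1, _, h3⟩ := h
  refine ⟨f, fun e => h3 e (Finset.notMem_empty _) (Finset.notMem_empty _), fun x => ?_⟩
  rw [← h1 x]
  unfold Pool.Agent.TH676.Z.bd
  refine Finset.sum_congr rfl fun e _ => ?_
  unfold ic
  by_cases h4 : src e = x <;> by_cases h5 : dst e = x <;> simp [h4, h5]

theorem charPoly_pos [Fintype V] [DecidableEq V] [Fintype E] [DecidableEq E] (src dst : E → V)
    (f : E → ℤ) (h1 : IsFlow src dst f) (h2 : ∀ e, 1 ≤ |f e| ∧ |f e| ≤ 4) (q : ℕ) (hq : 5 ≤ q) :
    0 < bondCharPoly src dst q :=
  Pool.Agent.TH362.FP.chr_pos src dst f h2 h1 q hq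

theorem hole_iff [Fintype V] [DecidableEq V] [Fintype E] [DecidableEq E] (src dst : E → V)
    (C : Finset V) : Pool.Agent.R129.Hole.Hole (Pool.Agent.TH676.Z.Adj src dst) C ↔
      IsInducedCircuit src dst C := by
  classical
  constructor
  · intro h
    refine ⟨h.ne, fun x hx => ?_, h.conn⟩
    obtain ⟨a, ha, b, hb, hab, h1, h2, h3⟩ := h.two x hx
    have h4 : C.filter (fun y => Adjacent src dst x y) = {a, b} := by
      ext y
      rw [Finset.mem_filter, Finset.mem_insert, Finset.mem_singleton]
      constructor
      · rintro ⟨hy, hxy⟩
        exact h3 y hy hxy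
      · rintro (rfl | rfl)
        · exact ⟨ha, h1⟩
        · exact ⟨hb, h2⟩
    have h5 := Finset.card_pair hab
    rw [← h4] at h5
    convert h5
  · intro h
    refine ⟨h.nonempty, fun x hx => ?_, h.connected⟩
    have h4 : (C.filter (fun y => Adjacent src dst x y)).card = 2 := by
      have := h.two x hx
      convert this
    obtain ⟨a, b, hab, h5⟩ := Finset.card_eq_two.1 h4
    have h6 : ∀ y, (y ∈ C ∧ Adjacent src dst x y) ↔ (y = a ∨ y = b) := by
      intro y
      rw [← Finset.mem_filter, h5, Finset.mem_insert, Finset.mem_singleton]
    have ha := (h6 a).2 (Or.inl rfl)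
    have hb := (h6 b).2 (Or.inr rfl)
    exact ⟨a, ha.1, b, hb.1, hab, ha.2, hb.2, fun y hy hxy => (h6 y).1 ⟨hy, hxy⟩⟩

theorem result :
    ∀ (V E : Type) [Fintype V] [DecidableEq V] [Fintype E] [DecidableEq E] (src dst : E → V),
      (∀ C : Finset V, IsInducedCircuit src dst C →
        (C.filter (fun x => 3 ≤ properDegree src dst x)).card ≤ 25) →
      (∀ Y : Finset V, (boundary src dst Y).card ≠ 1) →
      (∃ f : E → ℤ, IsFlow src dst f ∧ ∀ e, 1 ≤ |f e| ∧ |f e| ≤ 4) ∧
      ∀ q : ℕ, 5 ≤ q → 0 < bondCharPoly src dst q := by
  intro V E _ _ _ _ src dst hC hb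
  have hcl : Pool.Agent.R129.Hole.ClH 25 src dst := fun C h => hC C ((hole_iff src dst C).1 h)
  have hfl := Pool.Agent.R129.Hole.flow_of_ClH Pool.Agent.Y335.FL.contract_all hcl
    (fun Y _ => by rw [Finset.sdiff_empty]; exact hb Y)
  obtain ⟨F, hF, hF0⟩ := int_flow src dst (nzf src dst hfl)
  have hF1 := (isFlow_iff src dst F).mpr hF0
  exact ⟨⟨F, hF1, hF⟩, fun q hq => charPoly_pos src dst F hF1 hF q hq⟩

/-- Bridgeless graphs without an induced path on 25 vertices. -/
theorem noInducedPath (V E : Type) [Fintype V] [DecidableEq V] [Fintype E] [DecidableEq E]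
    (src dst : E → V) (hp : ¬ ∃ p : ℕ → V, IsInducedPath src dst 24 p)
    (hb : ∀ Y : Finset V, (boundary src dst Y).card ≠ 1) :
    ∃ f : E → ℤ, IsFlow src dst f ∧ ∀ e, 1 ≤ |f e| ∧ |f e| ≤ 4 := by
  refine (result V E src dst (fun C hC => ?_) hb).1
  refine (Finset.card_le_card (Finset.filter_subset _ _)).trans ?_
  by_contra hcon
  push Not at hcon
  let G : SimpleGraph V :=
    { Adj := Pool.Agent.TH676.Z.Adj src dst
      symm := ⟨fun a b h => Pool.Agent.R129.Hole.adj_symm' h⟩
      loopless := ⟨fun a h => h.1 rfl⟩ }
  have hH : Pool.Agent.R129.Hole.Hole G.Adj C := (hole_iff src dst C).2 hC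
  obtain ⟨m, p, hIP, hm⟩ := hH.path
  exact hp ⟨p, hIP.init (show 24 ≤ m by omega)⟩

end Pool.Agent.Results.MP_974d84_co.InducedCircuits
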