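import Mathlib
import Pool.Agent.TH497.PW.IntFlow
import Pool.Agent.TH497.TW.Std
import Pool.Agent.TH362.FP.Pos
import Pool.Agent.Y335.FL.Main
import Pool.Agent.R129.Tia.Wid
import Pool.Agent.R129.Tia.Ind2

set_option autoImplicit false

/-!
# Nowhere-zero 5-flows: tree decompositions with bags which are not sparse (MP_974d84_co)

Let `G` be a bridgeless multigraph with a tree decomposition such that any `20` vertices of a bag
include all vertices of a circuit of `G` with `2, ..., 11` edges (two parallel edges count as a
circuit).  Then `G` has a nowhere-zero 5-flow, and the characteristic polynomial of its bond matroid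
is positive at all integers `q ≥ 5` (`result`).  There is no condition on the degrees, on the
connectivity, on the number of vertices or on the size of the bags.

The same proof gives the result for branch decompositions such that any `19` vertices of a middle
set (`branch`), and for path decompositions such that any `22` vertices of a bag (`path`), include
all vertices of a circuit with `2, ..., 11` edges.

Special cases: treewidth at most `18`, branchwidth at most `18` or pathwidth at most `20`
(`widths`); tree-independence number at most nine, that is a tree decomposition whose bags have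
independence number at most nine (`treeIndependence`); a tree decomposition such that every bag is
covered by `a` cliques and `b` further vertices with `2 a + b ≤ 19` (`cliqueBags`).

Proof.  (1) The three classes are closed under contractions: vertices of a bag of `G / e` can be
lifted to vertices of the corresponding bag of `G`, and circuits through the lifted vertices
survive.  (The classes are not closed under deletions.)  Let `G` be a counterexample with as few
edges as possible.  Circuits with at most eleven edges can be contracted (library `Y335/FL`), and so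
can one of two edges which form a cut; hence (library `Y358/IN`) `G` has girth at least twelve and
all degrees are at least three.  So the bags have at most `19` or `21` elements, or the middle sets
have at most `18` elements.

(2) Graphs of treewidth at most `18`, of branchwidth at most `18` or of pathwidth at most `20`
(library `R15`).  Let `U` be a set of `m` vertices with `t` outer neighbours.  In the graph of the
edges which meet `U` one deletes vertices of degree at most one as long as possible.  The Moore
bound for irregular graphs of girth twelve (Alon, Hoory and Linial) excludes `t ≤ 18`,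
`25 ≤ m ≤ 66 - t / 2`, `t ≤ 19`, `30 ≤ m ≤ 53` and `t ≤ 20`, `m = 42`.  Going up in the
decomposition one obtains that the separated parts have at most `24` vertices; but a minimal
counterexample has at least `126` vertices.

(3) Independence number.  A graph with `20` vertices and girth at least twelve has ten independent
vertices: vertices of degree at most one are taken; if all degrees are at least two and some vertex
`x` has three neighbours then one takes the vertices at distance one, three and five from `x` or, if
these are only nine, those at distance one and three and half of the seven other vertices which have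
distance at least five from `x`; if all degrees are two then the graph is a circuit.
-/

namespace Pool.Agent.Results.MP_974d84_co.SparseWidths

open Pool.Agent.TH497.PW Pool.Agent.TH497.TW Pool.Agent.R129.Tia

variable {V E ι : Type}

/-- The edges with exactly one end in `X`. -/
def boundary [DecidableEq V] [Fintype E] (src dst : E → V) (X : Finset V) : Finset E :=
  Finset.univ.filter (fun e => ¬ (src e ∈ X ↔ dst e ∈ X))

/-- Kirchhoff's law. -/
def IsFlow [DecidableEq V] [Fintype E] (src dst : E → V) (f : E → ℤ) : Prop :=
  ∀ v : V, ∑ e ∈ Finset.univ.filter (fun e => src e = v), f e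
    = ∑ e ∈ Finset.univ.filter (fun e => dst e = v), f e

/-- The edge `e` joins `x` and `y`. -/
def Joins (src dst : E → V) (e : E) (x y : V) : Prop :=
  (src e = x ∧ dst e = y) ∨ (src e = y ∧ dst e = x)

/-- All vertices of some circuit with `k + 2 = 2, ..., 11` edges are in `S`: the vertices `v i` are
distinct, the edges `e i` are distinct, and `e i` joins `v i` and `v (i + 1)` (modulo `k + 2`). -/
def HasShortCircuit (src dst : E → V) (S : Finset V) : Prop :=
  ∃ k, k ≤ 9 ∧ ∃ (v : Fin (k + 2) → V) (e : Fin (k + 2) → E), Function.Injective v ∧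
    Function.Injective e ∧ ∀ i, v i ∈ S ∧ Joins src dst (e i) (v i) (v (i + 1))

/-- Any `n` vertices in `B` include all vertices of a circuit with `2, ..., 11` edges.  (Sets with
fewer than `n` vertices have this property.) -/
def NotSparse (src dst : E → V) (n : ℕ) (B : Finset V) : Prop :=
  ∀ S ⊆ B, S.card = n → HasShortCircuit src dst S

/-- Rooted binary trees whose leaves are labelled by edges. -/
inductive BranchTree (E : Type) : Type
  | leaf : E → BranchTree E
  | node : BranchTree E → BranchTree E → BranchTree E

/-- The labels of the leaves. -/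
def BranchTree.labels [DecidableEq E] : BranchTree E → Finset E
  | .leaf e => {e}
  | .node l r => l.labels ∪ r.labels

/-- The vertices which are incident with an edge in `F` and with an edge outside `F`; loops are
ignored. -/
def middle [Fintype V] [DecidableEq V] [Fintype E] [DecidableEq E] (src dst : E → V)
    (F : Finset E) : Finset V :=
  Finset.univ.filter (fun x => (∃ e ∈ F, src e ≠ dst e ∧ (src e = x ∨ dst e = x)) ∧
    ∃ e ∈ Fᶜ, src e ≠ dst e ∧ (src e = x ∨ dst e = x))

/-- For all subtrees, the set of the middle vertices of the set of the labels of its leaves has the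
property `P`. -/
def BranchTree.Middle [Fintype V] [DecidableEq V] [Fintype E] [DecidableEq E]
    (src dst : E → V) (P : Finset V → Prop) : BranchTree E → Prop
  | .leaf e => P (middle src dst {e})
  | .node l r => P (middle src dst (l.labels ∪ r.labels)) ∧ l.Middle src dst P ∧
      r.Middle src dst P

/-- The sets `X i`, for the nodes `i` of the graph `T`, are a tree decomposition: `T` is a tree,
every edge has both ends in one of the sets, and a vertex in `X i` and `X j` is in `X k` for all `k`
on the path of `T` from `i` to `j`. -/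
structure IsTreeDecomposition [DecidableEq V] (src dst : E → V) (T : SimpleGraph ι)
    (X : ι → Finset V) : Prop where
  tree : T.IsTree
  edge : ∀ e, ∃ i, src e ∈ X i ∧ dst e ∈ X i
  path : ∀ (i j : ι) (p : T.Walk i j), p.IsPath → ∀ k ∈ p.support, X i ∩ X j ⊆ X k

/-- `X 0, X 1, ...` is a path decomposition: every edge has both ends in one of the sets, and every
vertex lies in an interval of the sets. -/
structure IsPathDecomposition [DecidableEq V] (src dst : E → V) (X : ℕ → Finset V) : Prop where
  edge : ∀ e, ∃ i, src e ∈ X i ∧ dst e ∈ X i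
  interval : ∀ i j k, i ≤ j → j ≤ k → X i ∩ X k ⊆ X j

/-- The number of the components of the graph with the vertices `V` and the edges `A`. -/
noncomputable def components (src dst : E → V) (A : Finset E) : ℕ :=
  Nat.card (SimpleGraph.fromRel
    (fun u v : V => ∃ e ∈ A, src e = u ∧ dst e = v)).ConnectedComponent

/-- The rank of `A` in the cycle matroid of the graph. -/
noncomputable def cycleRank [Fintype V] (src dst : E → V) (A : Finset E) : ℕ :=
  Fintype.card V - components src dst A

/-- The rank of `A` in the bond matroid of the graph (the dual of the cycle matroid). -/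
noncomputable def bondRank [Fintype V] [Fintype E] [DecidableEq E] (src dst : E → V)
    (A : Finset E) : ℕ :=
  A.card + cycleRank src dst Aᶜ - cycleRank src dst Finset.univ

/-- The characteristic polynomial of the bond matroid at the integer `x`. -/
noncomputable def bondCharPoly [Fintype V] [Fintype E] [DecidableEq E] (src dst : E → V)
    (x : ℤ) : ℤ :=
  ∑ A : Finset E, (-1) ^ A.card * x ^ (bondRank src dst Finset.univ - bondRank src dst A)

theorem isFlow_iff [DecidableEq V] [Fintype E] (src dst : E → V) (f : E → ℤ) :
    IsFlow src dst f ↔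
      ∀ v, ∑ e, f e * ((if src e = v then 1 else 0) - (if dst e = v then 1 else 0)) = 0 := by
  unfold IsFlow
  refine forall_congr' fun v => ?_
  rw [Finset.sum_filter, Finset.sum_filter, ← sub_eq_zero, ← Finset.sum_sub_distrib]
  have : ∀ e, (if src e = v then f e else 0) - (if dst e = v then f e else 0)
      = f e * ((if src e = v then 1 else 0) - (if dst e = v then 1 else 0)) := by
    intro e
    by_cases h1 : src e = v <;> by_cases h2 : dst e = v <;> simp [h1, h2]
  rw [Finset.sum_congr rfl (fun e _ => this e)]

theorem nzf [Fintype V] [DecidableEq V] [Fintype E] [DecidableEq E] (src dst : E → V)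
    (h : Pool.Agent.TH676.Z.FlowOn src dst ∅ ∅) : NZF src dst := by
  obtain ⟨f, h1, _, h3⟩ := h
  refine ⟨f, fun e => h3 e (Finset.notMem_empty _) (Finset.notMem_empty _), fun x => ?_⟩
  rw [← h1 x]
  unfold Pool.Agent.TH676.Z.bd
  refine Finset.sum_congr rfl fun e _ => ?_
  unfold ic
  by_cases h4 : src e = x <;> by_cases h5 : dst e = x <;> simp [h4, h5]

theorem charPoly_pos [Fintype V] [DecidableEq V] [Fintype E] [DecidableEq E] (src dst : E → V)
    (f : E → ℤ) (h1 : IsFlow src dst f) (h2 : ∀ e, 1 ≤ |f e| ∧ |f e| ≤ 4) (q : ℕ) (hq : 5 ≤ q) :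
    0 < bondCharPoly src dst q :=
  Pool.Agent.TH362.FP.chr_pos src dst f h2 h1 q hq

/-- The same tree. -/
def conv : BranchTree E → Pool.Agent.R15.BW18.ETree E
  | .leaf e => .leaf e
  | .node l r => .node (conv l) (conv r)

theorem conv_labels [DecidableEq E] (T : BranchTree E) : (conv T).labels = T.labels := by
  induction T with
  | leaf e => rfl
  | node l r ihl ihr =>
    show (conv l).labels ∪ (conv r).labels = l.labels ∪ r.labels
    rw [ihl, ihr]

theorem spw [DecidableEq V] (src dst : E → V) (w : ℕ) (B : Finset V)
    (h : NotSparse src dst (w + 1) B) : Spw w src dst B := by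
  intro S hSB hno
  by_contra hcon
  push Not at hcon
  obtain ⟨S', hS', hcard⟩ := Finset.exists_subset_card_eq (show w + 1 ≤ S.card by omega)
  obtain ⟨k, hk, v, e, hv, he, hA⟩ := h S' (hS'.trans hSB) hcard
  exact hno ⟨k, hk, v, e, hv, he, fun i => ⟨hS' (hA i).1, (hA i).2⟩⟩

theorem conv_width [Fintype V] [DecidableEq V] [Fintype E] [DecidableEq E] (src dst : E → V)
    (w : ℕ) (T : BranchTree E) (h : T.Middle src dst (NotSparse src dst (w + 1))) :
    WidS w src dst (conv T) := by
  induction T with
  | leaf e => exact spw src dst w _ h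
  | node l r ihl ihr =>
    refine ⟨?_, ihl h.2.1, ihr h.2.2⟩
    rw [conv_labels, conv_labels]
    exact spw src dst w _ h.1

theorem br [DecidableEq V] [Fintype E] [DecidableEq E] (src dst : E → V)
    (hb : ∀ Y : Finset V, (boundary src dst Y).card ≠ 1) : Pool.Agent.TH676.Z.Br src dst ∅ ∅ :=
  fun Y _ => by rw [Finset.sdiff_empty]; exact hb Y

theorem finish [Fintype V] [DecidableEq V] [Fintype E] [DecidableEq E] (src dst : E → V)
    (hfl : Pool.Agent.TH676.Z.FlowOn src dst ∅ ∅) :
    (∃ f : E → ℤ, IsFlow src dst f ∧ ∀ e, 1 ≤ |f e| ∧ |f e| ≤ 4) ∧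
      ∀ q : ℕ, 5 ≤ q → 0 < bondCharPoly src dst q := by
  obtain ⟨F, hF, hF0⟩ := int_flow src dst (nzf src dst hfl)
  have hF1 := (isFlow_iff src dst F).mpr hF0
  exact ⟨⟨F, hF1, hF⟩, fun q hq => charPoly_pos src dst F hF1 hF q hq⟩

/-- Tree decompositions such that any 20 vertices of a bag include all vertices of a circuit with
at most eleven edges. -/
theorem result :
    ∀ (V E ι : Type) [Fintype V] [DecidableEq V] [Fintype E] [DecidableEq E] [Fintype ι]
      (src dst : E → V) (T : SimpleGraph ι) (X : ι → Finset V),
      IsTreeDecomposition src dst T X →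
      (∀ i, NotSparse src dst 20 (X i)) →
      (∀ Y : Finset V, (boundary src dst Y).card ≠ 1) →
      (∃ f : E → ℤ, IsFlow src dst f ∧ ∀ e, 1 ≤ |f e| ∧ |f e| ≤ 4) ∧
      ∀ q : ℕ, 5 ≤ q → 0 < bondCharPoly src dst q := by
  intro V E ι _ _ _ _ _ src dst T X hX hS hb
  exact finish src dst (flow_of_HasTw Pool.Agent.Y335.FL.contract_all
    Pool.Agent.Y335.FL.girth_all (HasTw.of_tree hX.tree
      (fun i j p hp k hk v hi hj => hX.path i j p hp k hk (Finset.mem_inter.mpr ⟨hi, hj⟩))
      hX.edge fun i => spw src dst 19 _ (hS i)) (br src dst hb))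

/-- The same for branch decompositions such that any 19 vertices of a middle set include all
vertices of a circuit with at most eleven edges. -/
theorem branch (V E : Type) [Fintype V] [DecidableEq V] [Fintype E] [DecidableEq E]
    (src dst : E → V) (T : BranchTree E) (hT : T.labels = Finset.univ)
    (hS : T.Middle src dst (NotSparse src dst 19))
    (hb : ∀ Y : Finset V, (boundary src dst Y).card ≠ 1) :
    (∃ f : E → ℤ, IsFlow src dst f ∧ ∀ e, 1 ≤ |f e| ∧ |f e| ≤ 4) ∧
      ∀ q : ℕ, 5 ≤ q → 0 < bondCharPoly src dst q :=
  finish src dst (flow_of_HasBw Pool.Agent.Y335.FL.contract_all Pool.Agent.Y335.FL.girth_all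
    ⟨conv T, (conv_labels T).trans hT, conv_width src dst 18 T hS⟩ (br src dst hb))

/-- The same for path decompositions such that any 22 vertices of a bag include all vertices of a
circuit with at most eleven edges. -/
theorem path (V E : Type) [Fintype V] [DecidableEq V] [Fintype E] [DecidableEq E]
    (src dst : E → V) (X : ℕ → Finset V) (hX : IsPathDecomposition src dst X)
    (hS : ∀ i, NotSparse src dst 22 (X i))
    (hb : ∀ Y : Finset V, (boundary src dst Y).card ≠ 1) :
    (∃ f : E → ℤ, IsFlow src dst f ∧ ∀ e, 1 ≤ |f e| ∧ |f e| ≤ 4) ∧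
      ∀ q : ℕ, 5 ≤ q → 0 < bondCharPoly src dst q :=
  finish src dst (flow_of_HasPw Pool.Agent.Y335.FL.contract_all Pool.Agent.Y335.FL.girth_all
    ⟨X, hX.edge, hX.interval, fun i => spw src dst 21 _ (hS i)⟩ (br src dst hb))

/-- Treewidth at most 18, branchwidth at most 18 or pathwidth at most 20. -/
theorem widths (V E : Type) [Fintype V] [DecidableEq V] [Fintype E] [DecidableEq E]
    (src dst : E → V)
    (hX : (∃ (ι : Type) (_ : Fintype ι) (T : SimpleGraph ι) (X : ι → Finset V),
        IsTreeDecomposition src dst T X ∧ ∀ i, (X i).card ≤ 19) ∨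
      (∃ T : BranchTree E, T.labels = Finset.univ ∧ T.Middle src dst (fun B => B.card ≤ 18)) ∨
      (∃ X : ℕ → Finset V, IsPathDecomposition src dst X ∧ ∀ i, (X i).card ≤ 21))
    (hb : ∀ Y : Finset V, (boundary src dst Y).card ≠ 1) :
    (∃ f : E → ℤ, IsFlow src dst f ∧ ∀ e, 1 ≤ |f e| ∧ |f e| ≤ 4) ∧
      ∀ q : ℕ, 5 ≤ q → 0 < bondCharPoly src dst q := by
  have key : ∀ (n : ℕ) (B : Finset V), B.card ≤ n → NotSparse src dst (n + 1) B := by
    intro n B hB S hS hc
    have := Finset.card_le_card hS
    omega
  rcases hX with ⟨ι, hι, T, X, hX, hS⟩ | ⟨T, hT, hW⟩ | ⟨X, hX, hS⟩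
  · exact result V E ι src dst T X hX (fun i => key 19 _ (hS i)) hb
  · refine branch V E src dst T hT ?_ hb
    clear hT
    induction T with
    | leaf e => exact key 18 _ hW
    | node l r ihl ihr => exact ⟨key 18 _ hW.1, ihl hW.2.1, ihr hW.2.2⟩
  · exact path V E src dst X hX (fun i => key 21 _ (hS i)) hb

/-- Bridgeless graphs of tree-independence number at most nine. -/
theorem treeIndependence (V E ι : Type) [Fintype V] [DecidableEq V] [Fintype E] [DecidableEq E]
    [Fintype ι] (src dst : E → V) (T : SimpleGraph ι) (X : ι → Finset V)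
    (hX : IsTreeDecomposition src dst T X)
    (hI : ∀ i, ∀ I ⊆ X i, (∀ a ∈ I, ∀ b ∈ I, a ≠ b → ∀ e, ¬ Joins src dst e a b) → I.card ≤ 9)
    (hb : ∀ Y : Finset V, (boundary src dst Y).card ≠ 1) :
    ∃ f : E → ℤ, IsFlow src dst f ∧ ∀ e, 1 ≤ |f e| ∧ |f e| ≤ 4 := by
  refine (result V E ι src dst T X hX (fun i S hSX hcard => ?_) hb).1
  by_contra hno
  let G : SimpleGraph V :=
    { Adj := fun a b => Pool.Agent.TH676.Z.Adj src dst a b ∧ a ∈ S ∧ b ∈ S
      symm := ⟨fun a b h => ⟨⟨h.1.1.symm, h.1.2.imp fun e he => he.symm⟩, h.2.2, h.2.1⟩⟩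
      loopless := ⟨fun a h => h.1.1 rfl⟩ }
  have hG : ∀ a b, G.Adj a b ↔ (Pool.Agent.TH676.Z.Adj src dst a b ∧ a ∈ S ∧ b ∈ S) :=
    fun a b => Iff.rfl
  have hgi : Pool.Agent.Y335.FL.Girth
      (fun a b => Pool.Agent.TH676.Z.Adj src dst a b ∧ a ∈ S ∧ b ∈ S) 12 := by
    intro k hk v hv hA
    have hA' : ∀ i, ∃ e, Pool.Agent.TH676.Z.Jn src dst e (v i) (v (i + 1)) := fun i => (hA i).1.2
    choose ed hj using hA'
    have hinj : Function.Injective ed :=
      Pool.Agent.Y335.FL.GirthX.ed_inj (src := src) (dst := dst) hv hj
    exact hno ⟨k + 1, by omega, v, ed, hv, hinj, fun i => ⟨(hA i).2.1, hj i⟩⟩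
  have h12 : ∀ (w : V) (c : G.Walk w w), c.IsCycle → 12 ≤ c.length :=
    fun w c hc => Pool.Agent.Y335.FL.Ord.cycle_len hgi G hG c hc
  obtain ⟨I, h1, h2, h3⟩ := indep20 h12 S hcard
  have h4 := hI i I (h1.trans hSX) (fun a ha b hb hab e he =>
    h2 a ha b hb ⟨⟨hab, e, he⟩, h1 ha, h1 hb⟩)
  omega

/-- Bridgeless graphs with a tree decomposition such that every bag is covered by `a` cliques and
`b` further vertices, where `2 a + b ≤ 19`. -/
theorem cliqueBags (V E ι : Type) [Fintype V] [DecidableEq V] [Fintype E] [DecidableEq E]
    [Fintype ι] (src dst : E → V) (T : SimpleGraph ι) (X : ι → Finset V)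
    (hX : IsTreeDecomposition src dst T X)
    (hQ : ∀ i, ∃ (a : ℕ) (Q : Fin a → Finset V) (R : Finset V), 2 * a + R.card ≤ 19 ∧
      (∀ j, ∀ x ∈ Q j, ∀ y ∈ Q j, x ≠ y → ∃ e, Joins src dst e x y) ∧
      ∀ x ∈ X i, x ∈ R ∨ ∃ j, x ∈ Q j)
    (hb : ∀ Y : Finset V, (boundary src dst Y).card ≠ 1) :
    ∃ f : E → ℤ, IsFlow src dst f ∧ ∀ e, 1 ≤ |f e| ∧ |f e| ≤ 4 := by
  refine (result V E ι src dst T X hX (fun i S hSX hcard => ?_) hb).1
  obtain ⟨a, Q, R, hle, hcl, hcov⟩ := hQ i
  by_cases hj : ∃ j, 3 ≤ (S ∩ Q j).card
  · obtain ⟨j, hj⟩ := hj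
    obtain ⟨x, hx, y, hy, z, hz, hxy, hxz, hyz⟩ := Finset.two_lt_card.1
      (show 2 < (S ∩ Q j).card by omega)
    rw [Finset.mem_inter] at hx hy hz
    obtain ⟨e1, h1⟩ := hcl j x hx.2 y hy.2 hxy
    obtain ⟨e2, h2⟩ := hcl j y hy.2 z hz.2 hyz
    obtain ⟨e3, h3⟩ := hcl j z hz.2 x hx.2 hxz.symm
    have hv : Function.Injective (![x, y, z] : Fin 3 → V) := by
      intro i j hij
      fin_cases i <;> fin_cases j <;> simp_all
    have hA : ∀ i : Fin 3, Pool.Agent.TH676.Z.Jn src dst (![e1, e2, e3] i)
        ((![x, y, z] : Fin 3 → V) i) ((![x, y, z] : Fin 3 → V) (i + 1)) := by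
      intro i
      fin_cases i
      · exact h1
      · exact h2
      · exact h3
    refine ⟨1, by norm_num, ![x, y, z], ![e1, e2, e3], hv,
      Pool.Agent.Y335.FL.GirthX.ed_inj (src := src) (dst := dst) hv hA, fun i => ⟨?_, hA i⟩⟩
    fin_cases i
    · exact hx.1
    · exact hy.1
    · exact hz.1
  · exfalso
    push Not at hj
    have h1 : S ⊆ R ∪ Finset.univ.biUnion (fun j => S ∩ Q j) := by
      intro x hx
      rcases hcov x (hSX hx) with h | ⟨j, h⟩
      · exact Finset.mem_union_left _ h
      · exact Finset.mem_union_right _ (Finset.mem_biUnion.2 ⟨j, Finset.mem_univ _,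
          Finset.mem_inter.2 ⟨hx, h⟩⟩)
    have h2 := (Finset.card_le_card h1).trans (Finset.card_union_le _ _)
    have h3 : (Finset.univ.biUnion (fun j => S ∩ Q j)).card ≤ a * 2 := by
      refine Finset.card_biUnion_le.trans ?_
      calc ∑ j : Fin a, (S ∩ Q j).card ≤ ∑ _j : Fin a, 2 :=
            Finset.sum_le_sum fun j _ => by have := hj j; omega
        _ = a * 2 := by simp
    omega

end Pool.Agent.Results.MP_974d84_co.SparseWidths
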